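import Mathlib

open scoped RealInnerProductSpace

namespace Pool.Agent.Lib.MP_af7c6a_co

/-- The half-integer in the interval from `t` to `t + 1`. -/
noncomputable def hh (t : ℝ) : ℝ := (⌊t + 1 / 2⌋ : ℝ) + 1 / 2

lemma le_hh (t : ℝ) : t ≤ hh t := by
  unfold hh
  have := Int.lt_floor_add_one (t + 1 / 2)
  linarith

lemma hh_le (t : ℝ) : hh t ≤ t + 1 := by
  unfold hh
  have := Int.floor_le (t + 1 / 2)
  linarith

/-- If the directions of the vectors of `D` are well separated, there is a norm between the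
Euclidean norm and twice the Euclidean norm that takes half-integer values on `D`. -/
theorem exists_seminorm {V : Type*} [NormedAddCommGroup V] [InnerProductSpace ℝ V]
    (D : Set V) (h2 : ∀ w ∈ D, 2 ≤ ‖w‖)
    (hsep : ∀ v ∈ D, ∀ w ∈ D, v = w ∨ v = -w ∨
      ⟪w, v⟫ ^ 2 * ‖w‖ ≤ (‖w‖ - 2) * (‖v‖ ^ 2 * ‖w‖ ^ 2)) :
    ∃ N : Seminorm ℝ V, (∀ x, ‖x‖ ≤ N x) ∧ (∀ x, N x ≤ 2 * ‖x‖) ∧
      ∀ v ∈ D, ∃ k : ℤ, N v = k + 1 / 2 := by
  classical
  -- the family of seminorms
  let q : Option D → Seminorm ℝ V := fun o =>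
    match o with
    | none => normSeminorm ℝ V
    | some w => (normSeminorm ℝ ℝ).comp
        ((hh ‖(w : V)‖ / ‖(w : V)‖ ^ 2) • (innerSL ℝ (w : V)).toLinearMap)
  have hq_none : ∀ x, q none x = ‖x‖ := fun x => rfl
  have hq_some : ∀ (w : D) x, q (some w) x = hh ‖(w : V)‖ / ‖(w : V)‖ ^ 2 * |⟪(w : V), x⟫| := by
    intro w x
    have hw := h2 w w.2
    have h0 : 0 ≤ hh ‖(w : V)‖ / ‖(w : V)‖ ^ 2 := by
      have := le_hh ‖(w : V)‖
      exact div_nonneg (by linarith) (by positivity)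
    show ‖(hh ‖(w : V)‖ / ‖(w : V)‖ ^ 2) * ⟪(w : V), x⟫‖ = _
    rw [Real.norm_eq_abs, abs_mul, abs_of_nonneg h0]
  have hle : ∀ o x, q o x ≤ 2 * ‖x‖ := by
    intro o x
    cases o with
    | none => rw [hq_none]; have := norm_nonneg x; linarith
    | some w =>
      rw [hq_some]
      have hw := h2 w w.2
      have h1 := hh_le ‖(w : V)‖
      have h3 := abs_real_inner_le_norm (w : V) x
      have hx := norm_nonneg x
      rw [div_mul_eq_mul_div, div_le_iff₀ (by positivity)]
      have h4 : hh ‖(w : V)‖ ≤ 2 * ‖(w : V)‖ := by linarith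
      calc hh ‖(w : V)‖ * |⟪(w : V), x⟫| ≤ (2 * ‖(w : V)‖) * (‖(w : V)‖ * ‖x‖) := by
            apply mul_le_mul h4 h3 (abs_nonneg _) (by positivity)
        _ = 2 * ‖x‖ * ‖(w : V)‖ ^ 2 := by ring
  have hbdd' : ∀ x, BddAbove (Set.range fun o => q o x) := fun x =>
    ⟨2 * ‖x‖, by rintro _ ⟨o, rfl⟩; exact hle o x⟩
  have hbdd : BddAbove (Set.range q) := Seminorm.bddAbove_range_iff.2 hbdd'
  refine ⟨⨆ o, q o, ?_, ?_, ?_⟩
  · intro x
    rw [Seminorm.iSup_apply hbdd, ← hq_none x]
    exact le_ciSup (hbdd' x) none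
  · intro x
    rw [Seminorm.iSup_apply hbdd]
    exact ciSup_le fun o => hle o x
  · intro v hv
    refine ⟨⌊‖v‖ + 1 / 2⌋, ?_⟩
    show (⨆ o, q o) v = hh ‖v‖
    rw [Seminorm.iSup_apply hbdd]
    have hv2 := h2 v hv
    have hself : ∀ w : D, (v = w ∨ v = -w) → q (some w) v = hh ‖v‖ := by
      intro w hw
      rw [hq_some]
      have hw2 := h2 w w.2
      rcases hw with hw | hw
      · rw [hw, real_inner_self_eq_norm_sq, abs_of_nonneg (by positivity)]
        field_simp
      · rw [hw, inner_neg_right, real_inner_self_eq_norm_sq, abs_neg,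
          abs_of_nonneg (by positivity), norm_neg]
        field_simp
    apply le_antisymm
    · refine ciSup_le fun o => ?_
      cases o with
      | none => rw [hq_none]; exact le_hh _
      | some w =>
        rcases hsep v hv w w.2 with h | h | h
        · exact (hself w (Or.inl h)).le
        · exact (hself w (Or.inr h)).le
        · rw [hq_some]
          have hw2 := h2 w w.2
          refine le_trans ?_ (le_hh _)
          rw [div_mul_eq_mul_div, div_le_iff₀ (by positivity)]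
          have h1 := hh_le ‖(w : V)‖
          have key : (‖(w : V)‖ + 1) * |⟪(w : V), v⟫| ≤ ‖v‖ * ‖(w : V)‖ ^ 2 := by
            rw [← pow_le_pow_iff_left₀ (by positivity) (by positivity) two_ne_zero,
              mul_pow, sq_abs]
            set n := ‖(w : V)‖ with hn
            set I := ⟪(w : V), v⟫ with hI
            set a := ‖v‖ with ha
            have hn0 : 0 < n := by linarith
            refine le_of_mul_le_mul_right ?_ hn0
            have h5 : (n + 1) ^ 2 * (n - 2) ≤ n ^ 3 := by nlinarith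
            calc (n + 1) ^ 2 * I ^ 2 * n = (n + 1) ^ 2 * (I ^ 2 * n) := by ring
              _ ≤ (n + 1) ^ 2 * ((n - 2) * (a ^ 2 * n ^ 2)) :=
                  mul_le_mul_of_nonneg_left h (by positivity)
              _ = ((n + 1) ^ 2 * (n - 2)) * (a ^ 2 * n ^ 2) := by ring
              _ ≤ n ^ 3 * (a ^ 2 * n ^ 2) := mul_le_mul_of_nonneg_right h5 (by positivity)
              _ = (a * n ^ 2) ^ 2 * n := by ring
          calc hh ‖(w : V)‖ * |⟪(w : V), v⟫| ≤ (‖(w : V)‖ + 1) * |⟪(w : V), v⟫| :=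
                mul_le_mul_of_nonneg_right h1 (abs_nonneg _)
            _ ≤ _ := key
    · rw [← hself ⟨v, hv⟩ (Or.inl rfl)]
      exact le_ciSup (hbdd' v) (some ⟨v, hv⟩)

end Pool.Agent.Lib.MP_af7c6a_co
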