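import Mathlib

open scoped RealInnerProductSpace

namespace Pool.Agent.Lib.MP_af7c6a_co

variable {m : ℕ}

/-- The integer vector with coordinates `a i`, `a i ^ 2`, `a i ^ 3`. -/
def phi (a : Fin m → ℤ) : Fin m × Fin 3 → ℤ := fun x => a x.1 ^ (x.2.val + 1)

/-- The vector `T • (s • u, u)`. -/
noncomputable def emb (T s : ℝ) (u : Fin m × Fin 3 → ℤ) :
    EuclideanSpace ℝ (Fin 2 × (Fin m × Fin 3)) :=
  WithLp.toLp 2 fun x => T * (if x.1 = 0 then s else 1) * (u x.2 : ℝ)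

lemma inner_emb (T s T' s' : ℝ) (u u' : Fin m × Fin 3 → ℤ) :
    ⟪emb T s u, emb T' s' u'⟫ = T * T' * (s * s' + 1) * ((u ⬝ᵥ u' : ℤ) : ℝ) := by
  simp only [emb, PiLp.inner_apply, dotProduct]
  rw [Fintype.sum_prod_type, Fin.sum_univ_two]
  push_cast
  simp only [Finset.mul_sum, ← Finset.sum_add_distrib]
  refine Finset.sum_congr rfl fun x _ => ?_
  simp
  ring

lemma normsq_emb (T s : ℝ) (u : Fin m × Fin 3 → ℤ) :
    ‖emb T s u‖ ^ 2 = T ^ 2 * (s ^ 2 + 1) * ((u ⬝ᵥ u : ℤ) : ℝ) := by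
  rw [← real_inner_self_eq_norm_sq, inner_emb]; ring

lemma emb_sub (T s : ℝ) (u u' : Fin m × Fin 3 → ℤ) :
    emb T s u - emb T s u' = emb T s (u - u') := by
  ext x
  simp only [emb, PiLp.sub_apply, Pi.sub_apply]
  push_cast
  ring

lemma emb_neg (T s : ℝ) (u : Fin m × Fin 3 → ℤ) :
    emb T s (-u) = - emb T s u := by
  ext x
  simp [emb]

lemma dot_cs (u u' : Fin m × Fin 3 → ℤ) : (u ⬝ᵥ u') ^ 2 ≤ (u ⬝ᵥ u) * (u' ⬝ᵥ u') := by
  have := Finset.sum_mul_sq_le_sq_mul_sq Finset.univ u u'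
  simpa only [dotProduct, sq] using this

lemma dot_self_pos {u : Fin m × Fin 3 → ℤ} (hu : u ≠ 0) : 1 ≤ u ⬝ᵥ u := by
  obtain ⟨x, hx⟩ := Function.ne_iff.1 hu
  have h1 : u x * u x ≤ u ⬝ᵥ u :=
    Finset.single_le_sum (f := fun y => u y * u y) (fun y _ => mul_self_nonneg (u y))
      (Finset.mem_univ x)
  have h2 : 0 < u x * u x := mul_self_pos.2 hx
  omega

lemma parallel_of_eq {u u' : Fin m × Fin 3 → ℤ}
    (h : (u ⬝ᵥ u') ^ 2 = (u ⬝ᵥ u) * (u' ⬝ᵥ u')) (x : Fin m × Fin 3) :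
    (u' ⬝ᵥ u') * u x = (u ⬝ᵥ u') * u' x := by
  set A := u ⬝ᵥ u with hA
  set B := u' ⬝ᵥ u' with hB
  set C := u ⬝ᵥ u' with hC
  have h1 : ∑ y, (B * u y - C * u' y) ^ 2 = 0 := by
    have : ∀ y, (B * u y - C * u' y) ^ 2
        = B ^ 2 * (u y * u y) - 2 * B * C * (u y * u' y) + C ^ 2 * (u' y * u' y) := by
      intro y; ring
    simp only [this, Finset.sum_add_distrib, Finset.sum_sub_distrib, ← Finset.mul_sum]
    have e1 : ∑ y, u y * u y = A := rfl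
    have e2 : ∑ y, u y * u' y = C := rfl
    have e3 : ∑ y, u' y * u' y = B := rfl
    rw [e1, e2, e3]
    linear_combination (-B) * h
  have h2 := (Finset.sum_eq_zero_iff_of_nonneg (fun y _ => sq_nonneg _)).1 h1 x
    (Finset.mem_univ x)
  have h3 : B * u x - C * u' x = 0 := pow_eq_zero_iff two_ne_zero |>.1 h2
  linarith

lemma phi_sub_ne_zero {a b : Fin m → ℤ} (h : a ≠ b) : phi a - phi b ≠ 0 := by
  intro h0
  apply h
  funext i
  have := congrFun h0 (i, 0)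
  simp [phi] at this
  linarith

/-- Two parallel differences are equal up to sign. -/
lemma eq_or_neg_of_parallel {a b c e : Fin m → ℤ} (hab : a ≠ b) {B C : ℤ} (hB : B ≠ 0)
    (h : ∀ x, B * (phi a - phi b) x = C * (phi c - phi e) x) :
    phi a - phi b = phi c - phi e ∨ phi a - phi b = -(phi c - phi e) := by
  obtain ⟨i, hi⟩ := Function.ne_iff.1 hab
  have h1 := h (i, 0)
  have h2 := h (i, 1)
  have h3 := h (i, 2)
  simp only [phi, Pi.sub_apply, Fin.val_zero, Fin.val_one, Fin.val_two] at h1 h2 h3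
  norm_num at h1 h2 h3
  set p := a i
  set q := b i
  set r := c i
  set s := e i
  have hpq : p - q ≠ 0 := sub_ne_zero.2 hi
  have hne : B * (p - q) ≠ 0 := mul_ne_zero hB hpq
  have e1 : p + q = r + s := by
    have : B * (p - q) * ((p + q) - (r + s)) = 0 := by
      linear_combination h2 - (r + s) * h1
    have := (mul_eq_zero.1 this).resolve_left hne
    linarith
  have e2 : p ^ 2 + p * q + q ^ 2 = r ^ 2 + r * s + s ^ 2 := by
    have : B * (p - q) * ((p ^ 2 + p * q + q ^ 2) - (r ^ 2 + r * s + s ^ 2)) = 0 := by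
      linear_combination h3 - (r ^ 2 + r * s + s ^ 2) * h1
    have := (mul_eq_zero.1 this).resolve_left hne
    linarith
  have e3 : (p - q) ^ 2 = (r - s) ^ 2 := by
    linear_combination 4 * e2 - 3 * (p + q + r + s) * e1
  have e4 : (B ^ 2 - C ^ 2) * (p - q) ^ 2 = 0 := by
    have : (B * (p - q)) ^ 2 = (C * (r - s)) ^ 2 := by rw [h1]
    linear_combination this - C ^ 2 * e3
  have e5 : B ^ 2 = C ^ 2 := by
    have := (mul_eq_zero.1 e4).resolve_right (pow_ne_zero 2 hpq)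
    linarith
  rcases sq_eq_sq_iff_eq_or_eq_neg.1 e5 with e6 | e6
  · left
    funext x
    have := h x
    rw [← e6] at this
    exact mul_left_cancel₀ hB this
  · right
    funext x
    have := h x
    have hC : C = -B := by linarith
    rw [hC] at this
    apply mul_left_cancel₀ hB
    rw [this, Pi.neg_apply]; ring

lemma dot_phi_le {R : ℕ} {a b : Fin m → ℤ} (ha : ∀ i, 0 ≤ a i ∧ a i < R)
    (hb : ∀ i, 0 ≤ b i ∧ b i < R) :
    (phi a - phi b) ⬝ᵥ (phi a - phi b) ≤ 3 * m * (R : ℤ) ^ 6 := by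
  have key : ∀ x : Fin m × Fin 3, (phi a - phi b) x * (phi a - phi b) x ≤ (R : ℤ) ^ 6 := by
    intro x
    have hR : (1 : ℤ) ≤ R := by have := ha x.1; omega
    have hk : x.2.val + 1 ≤ 3 := by have := x.2.isLt; omega
    have hpow : ∀ t : ℤ, 0 ≤ t → t < R → 0 ≤ t ^ (x.2.val + 1) ∧ t ^ (x.2.val + 1) ≤ (R : ℤ) ^ 3 := by
      intro t h0 h1
      refine ⟨by positivity, ?_⟩
      calc t ^ (x.2.val + 1) ≤ (R : ℤ) ^ (x.2.val + 1) := pow_le_pow_left₀ h0 h1.le _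
        _ ≤ (R : ℤ) ^ 3 := pow_le_pow_right₀ hR hk
    obtain ⟨p1, p2⟩ := hpow _ (ha x.1).1 (ha x.1).2
    obtain ⟨q1, q2⟩ := hpow _ (hb x.1).1 (hb x.1).2
    simp only [phi, Pi.sub_apply]
    have : (R : ℤ) ^ 6 = (R : ℤ) ^ 3 * (R : ℤ) ^ 3 := by ring
    rw [this]
    nlinarith
  calc (phi a - phi b) ⬝ᵥ (phi a - phi b) = ∑ x, (phi a - phi b) x * (phi a - phi b) x := rfl
    _ ≤ ∑ _x : Fin m × Fin 3, (R : ℤ) ^ 6 := Finset.sum_le_sum fun x _ => key x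
    _ = 3 * m * (R : ℤ) ^ 6 := by
        rw [Finset.sum_const, Finset.card_univ, Fintype.card_prod, Fintype.card_fin,
          Fintype.card_fin, nsmul_eq_mul]
        push_cast; ring

/-- The scale factor at level `R`. -/
noncomputable def TT (m R : ℕ) : ℝ := 32 * (m : ℝ) ^ 2 * (R : ℝ) ^ 12

/-- All differences at all levels. -/
def DD (m : ℕ) : Set (EuclideanSpace ℝ (Fin 2 × (Fin m × Fin 3))) :=
  {v | ∃ (R : ℕ) (a b : Fin m → ℤ), (∀ i, 0 ≤ a i ∧ a i < R) ∧ (∀ i, 0 ≤ b i ∧ b i < R) ∧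
    a ≠ b ∧ v = emb (TT m R) R (phi a - phi b)}

lemma TT_le_norm {R : ℕ} {u : Fin m × Fin 3 → ℤ} (hu : u ≠ 0) :
    TT m R ≤ ‖emb (TT m R) R u‖ := by
  have h0 : 0 ≤ TT m R := by unfold TT; positivity
  rw [← pow_le_pow_iff_left₀ h0 (norm_nonneg _) two_ne_zero, normsq_emb]
  have h1 : (1 : ℝ) ≤ ((u ⬝ᵥ u : ℤ) : ℝ) := by exact_mod_cast dot_self_pos hu
  have h2 : (1 : ℝ) ≤ (R : ℝ) ^ 2 + 1 := by nlinarith [sq_nonneg (R : ℝ)]
  have h3 : (1 : ℝ) ≤ ((R : ℝ) ^ 2 + 1) * ((u ⬝ᵥ u : ℤ) : ℝ) := one_le_mul_of_one_le_of_one_le h2 h1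
  calc TT m R ^ 2 = TT m R ^ 2 * 1 := by ring
    _ ≤ TT m R ^ 2 * (((R : ℝ) ^ 2 + 1) * ((u ⬝ᵥ u : ℤ) : ℝ)) :=
        mul_le_mul_of_nonneg_left h3 (by positivity)
    _ = _ := by ring

lemma pos_of_ne {R : ℕ} {a b : Fin m → ℤ} (ha : ∀ i, 0 ≤ a i ∧ a i < R) (hab : a ≠ b) :
    1 ≤ m ∧ 1 ≤ R := by
  obtain ⟨i, -⟩ := Function.ne_iff.1 hab
  have := ha i
  have := i.isLt
  omega

lemma two_le_norm : ∀ w ∈ DD m, 2 ≤ ‖w‖ := by
  rintro w ⟨R, a, b, ha, hb, hab, rfl⟩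
  obtain ⟨hm, hR⟩ := pos_of_ne ha hab
  refine le_trans ?_ (TT_le_norm (phi_sub_ne_zero hab))
  unfold TT
  have h1 : (1 : ℝ) ≤ (m : ℝ) ^ 2 := one_le_pow₀ (by exact_mod_cast hm)
  have h2 : (1 : ℝ) ≤ (R : ℝ) ^ 12 := one_le_pow₀ (by exact_mod_cast hR)
  nlinarith

/-- An elementary form of the separation inequality. -/
lemma sep_aux {P Q n G K : ℝ} (hP : 0 ≤ P) (hG : 0 < G) (hK : 2 * G ≤ n) (hQ : 0 ≤ K)
    (h : Q * G ≤ P * (G - 1)) : K * Q * n ≤ (n - 2) * (K * P) := by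
  have hn : 0 < n := by linarith
  have h1 : Q * n ≤ (n - 2) * P := by
    refine le_of_mul_le_mul_right ?_ hG
    nlinarith [mul_le_mul_of_nonneg_right h hn.le, mul_le_mul_of_nonneg_left hK hP]
  nlinarith [mul_le_mul_of_nonneg_left h1 hQ]

lemma sep_DD : ∀ v ∈ DD m, ∀ w ∈ DD m, v = w ∨ v = -w ∨
    ⟪w, v⟫ ^ 2 * ‖w‖ ≤ (‖w‖ - 2) * (‖v‖ ^ 2 * ‖w‖ ^ 2) := by
  rintro v ⟨Q, a, b, ha, hb, hab, rfl⟩ w ⟨R, c, e, hc, he, hce, rfl⟩
  obtain ⟨hm, hR⟩ := pos_of_ne hc hce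
  have hmr : (1 : ℝ) ≤ m := by exact_mod_cast hm
  have hRr : (1 : ℝ) ≤ R := by exact_mod_cast hR
  set u := phi a - phi b with hu
  set u' := phi c - phi e with hu'
  have hu0 : u ≠ 0 := phi_sub_ne_zero hab
  have hu0' : u' ≠ 0 := phi_sub_ne_zero hce
  have hn := TT_le_norm (m := m) (R := R) hu0'
  have hA := dot_self_pos hu0
  have hB := dot_self_pos hu0'
  have hcs := dot_cs u u'
  have hcomm : u' ⬝ᵥ u = u ⬝ᵥ u' := dotProduct_comm _ _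
  by_cases hQR : Q = R
  · subst hQR
    by_cases hpar : (u ⬝ᵥ u') ^ 2 = (u ⬝ᵥ u) * (u' ⬝ᵥ u')
    · have := eq_or_neg_of_parallel hab (B := u' ⬝ᵥ u') (C := u ⬝ᵥ u') (by omega)
        (c := c) (e := e) (parallel_of_eq hpar)
      rcases this with h | h
      · left; rw [hu, hu', h]
      · right; left; rw [hu, hu', h, emb_neg]
    · right; right
      have hlt : (u ⬝ᵥ u') ^ 2 + 1 ≤ (u ⬝ᵥ u) * (u' ⬝ᵥ u') := by omega
      have hAle := dot_phi_le ha hb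
      have hBle := dot_phi_le hc he
      rw [← hu] at hAle
      rw [← hu'] at hBle
      rw [inner_emb, normsq_emb, normsq_emb, hcomm]
      set n := ‖emb (TT m Q) Q u'‖
      have hAr : (1 : ℝ) ≤ ((u ⬝ᵥ u : ℤ) : ℝ) := by exact_mod_cast hA
      have hBr : (1 : ℝ) ≤ ((u' ⬝ᵥ u' : ℤ) : ℝ) := by exact_mod_cast hB
      have hAler : ((u ⬝ᵥ u : ℤ) : ℝ) ≤ 3 * m * (Q : ℝ) ^ 6 := by exact_mod_cast hAle
      have hBler : ((u' ⬝ᵥ u' : ℤ) : ℝ) ≤ 3 * m * (Q : ℝ) ^ 6 := by exact_mod_cast hBle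
      have hltr : ((u ⬝ᵥ u' : ℤ) : ℝ) ^ 2 + 1 ≤ ((u ⬝ᵥ u : ℤ) : ℝ) * ((u' ⬝ᵥ u' : ℤ) : ℝ) := by
        exact_mod_cast hlt
      set A := ((u ⬝ᵥ u : ℤ) : ℝ)
      set B := ((u' ⬝ᵥ u' : ℤ) : ℝ)
      set C := ((u ⬝ᵥ u' : ℤ) : ℝ)
      have hAB : A * B ≤ 9 * (m : ℝ) ^ 2 * (Q : ℝ) ^ 12 := by
        calc A * B ≤ (3 * m * (Q : ℝ) ^ 6) * (3 * m * (Q : ℝ) ^ 6) :=
              mul_le_mul hAler hBler (by linarith) (by positivity)
          _ = _ := by ring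
      have hABpos : 0 < A * B := by positivity
      have := sep_aux (P := A * B) (Q := C ^ 2) (n := n) (G := A * B)
        (K := TT m Q ^ 4 * ((Q : ℝ) ^ 2 + 1) ^ 2) hABpos.le hABpos
        (by
          have h9 : 0 ≤ (m : ℝ) ^ 2 * (Q : ℝ) ^ 12 := by positivity
          unfold TT at hn
          nlinarith)
        (by positivity) (by nlinarith)
      convert this using 1 <;> ring
  · right; right
    rw [inner_emb, normsq_emb, normsq_emb, hcomm]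
    set n := ‖emb (TT m R) R u'‖
    have hAr : (1 : ℝ) ≤ ((u ⬝ᵥ u : ℤ) : ℝ) := by exact_mod_cast hA
    have hBr : (1 : ℝ) ≤ ((u' ⬝ᵥ u' : ℤ) : ℝ) := by exact_mod_cast hB
    have hcsr : ((u ⬝ᵥ u' : ℤ) : ℝ) ^ 2 ≤ ((u ⬝ᵥ u : ℤ) : ℝ) * ((u' ⬝ᵥ u' : ℤ) : ℝ) := by
      exact_mod_cast hcs
    set A := ((u ⬝ᵥ u : ℤ) : ℝ)
    set B := ((u' ⬝ᵥ u' : ℤ) : ℝ)
    set C := ((u ⬝ᵥ u' : ℤ) : ℝ)
    set r : ℝ := (R : ℝ) with hr
    set q : ℝ := (Q : ℝ) with hq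
    have hq0 : 0 ≤ q := by positivity
    have hd : 1 ≤ (q - r) ^ 2 := by
      have h1 : (Q : ℤ) - R ≠ 0 := by omega
      have h2 : (1 : ℤ) ≤ ((Q : ℤ) - R) ^ 2 := by
        have := sq_pos_of_ne_zero h1
        omega
      have h3 : ((1 : ℤ) : ℝ) ≤ ((((Q : ℤ) - R) ^ 2 : ℤ) : ℝ) := Int.cast_le.2 h2
      push_cast at h3
      exact h3
    have hq2 : q ^ 2 + 1 ≤ (q - r) ^ 2 * (2 * r ^ 2 + 3) := by
      have h1 : q ^ 2 ≤ 2 * (q - r) ^ 2 + 2 * r ^ 2 := by nlinarith [sq_nonneg (q - 2 * r)]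
      have h2 : (2 * r ^ 2 + 1) * 1 ≤ (2 * r ^ 2 + 1) * (q - r) ^ 2 :=
        mul_le_mul_of_nonneg_left hd (by positivity)
      nlinarith
    have hG : 0 < (r ^ 2 + 1) * (2 * r ^ 2 + 3) := by positivity
    have hAB : 0 < A * B := by positivity
    have := sep_aux (P := (r ^ 2 + 1) * (q ^ 2 + 1) * (A * B)) (Q := (r * q + 1) ^ 2 * C ^ 2)
      (n := n) (G := (r ^ 2 + 1) * (2 * r ^ 2 + 3)) (K := TT m R ^ 2 * TT m Q ^ 2)
      (by positivity) hG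
      (by
        unfold TT at hn
        rw [← hr] at hn
        have h1 : r ^ 2 ≤ r ^ 4 := pow_le_pow_right₀ hRr (by norm_num)
        have h2 : r ^ 4 ≤ r ^ 12 := pow_le_pow_right₀ hRr (by norm_num)
        have h3 : 1 ≤ r ^ 2 := one_le_pow₀ hRr
        have h4 : (1 : ℝ) ≤ (m : ℝ) ^ 2 := one_le_pow₀ hmr
        have h5 : r ^ 12 ≤ (m : ℝ) ^ 2 * r ^ 12 := le_mul_of_one_le_left (by positivity) h4
        nlinarith)
      (by positivity)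
      (by
        have h1 : (r * q + 1) ^ 2 * C ^ 2 ≤ (r * q + 1) ^ 2 * (A * B) :=
          mul_le_mul_of_nonneg_left hcsr (by positivity)
        have h2 : (r * q + 1) ^ 2 * ((r ^ 2 + 1) * (2 * r ^ 2 + 3))
            ≤ (r ^ 2 + 1) * (q ^ 2 + 1) * ((r ^ 2 + 1) * (2 * r ^ 2 + 3) - 1) := by
          have h3 : (r ^ 2 + 1) * (q ^ 2 + 1) ≤ (r ^ 2 + 1) * ((q - r) ^ 2 * (2 * r ^ 2 + 3)) :=
            mul_le_mul_of_nonneg_left hq2 (by positivity)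
          have h4 : (r * q + 1) ^ 2 = (r ^ 2 + 1) * (q ^ 2 + 1) - (q - r) ^ 2 := by ring
          rw [h4]
          nlinarith
        calc (r * q + 1) ^ 2 * C ^ 2 * ((r ^ 2 + 1) * (2 * r ^ 2 + 3))
            ≤ (r * q + 1) ^ 2 * (A * B) * ((r ^ 2 + 1) * (2 * r ^ 2 + 3)) :=
              mul_le_mul_of_nonneg_right h1 hG.le
          _ = ((r * q + 1) ^ 2 * ((r ^ 2 + 1) * (2 * r ^ 2 + 3))) * (A * B) := by ring
          _ ≤ ((r ^ 2 + 1) * (q ^ 2 + 1) * ((r ^ 2 + 1) * (2 * r ^ 2 + 3) - 1)) * (A * B) :=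
              mul_le_mul_of_nonneg_right h2 hAB.le
          _ = _ := by ring)
    convert this using 1 <;> ring

lemma norm_emb_phi_le {R : ℕ} (hR : 1 ≤ R) (hm : 1 ≤ m) {a : Fin m → ℤ}
    (ha : ∀ i, 0 ≤ a i ∧ a i < R) :
    ‖emb (TT m R) R (phi a)‖ ≤ 192 * (m : ℝ) ^ 3 * (R : ℝ) ^ 16 := by
  have hmr : (1 : ℝ) ≤ m := by exact_mod_cast hm
  have hRr : (1 : ℝ) ≤ R := by exact_mod_cast hR
  have h0 : phi (0 : Fin m → ℤ) = 0 := by funext x; simp [phi]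
  have h1 := dot_phi_le (b := 0) ha (fun i => ⟨le_rfl, by simp; omega⟩)
  rw [h0, sub_zero] at h1
  have h2 : ((phi a ⬝ᵥ phi a : ℤ) : ℝ) ≤ 3 * m * (R : ℝ) ^ 6 := by exact_mod_cast h1
  rw [← pow_le_pow_iff_left₀ (norm_nonneg _) (by positivity) two_ne_zero, normsq_emb]
  have h3 : (R : ℝ) ^ 2 + 1 ≤ 2 * (R : ℝ) ^ 2 := by nlinarith
  have h4 : (m : ℝ) ≤ (m : ℝ) ^ 2 := by nlinarith
  calc TT m R ^ 2 * ((R : ℝ) ^ 2 + 1) * ((phi a ⬝ᵥ phi a : ℤ) : ℝ)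
      ≤ TT m R ^ 2 * ((R : ℝ) ^ 2 + 1) * (3 * m * (R : ℝ) ^ 6) :=
        mul_le_mul_of_nonneg_left h2 (by positivity)
    _ ≤ TT m R ^ 2 * (2 * (R : ℝ) ^ 2) * (36 / 2 * m ^ 2 * (R : ℝ) ^ 6) := by
        gcongr
        nlinarith
    _ = _ := by unfold TT; ring

end Pool.Agent.Lib.MP_af7c6a_co
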