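import Mathlib
import Pool.Agent.Lib.MP_af7c6a_co.Norm
import Pool.Agent.Lib.MP_af7c6a_co.Points

open scoped RealInnerProductSpace
open Filter

namespace Pool.Agent.Lib.MP_af7c6a_co

/-- Finiteness: separated sets in a ball of a proper space have bounded size. -/
lemma bdd_cfg {V : Type*} [NormedAddCommGroup V] [NormedSpace ℝ V] [ProperSpace V]
    (N : Seminorm ℝ V) (h1 : ∀ x, ‖x‖ ≤ N x) (h2 : ∀ x, N x ≤ 2 * ‖x‖) (X δ : ℝ) (hδ : 0 < δ) :
    ∃ M : ℕ, ∀ (n : ℕ) (c : V) (p : Fin n → V), (∀ i, N (p i - c) ≤ X) →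
      (∀ i j, i ≠ j → ∀ k : ℤ, δ ≤ |N (p i - p j) - k|) → n ≤ M := by
  classical
  have hK : TotallyBounded (Metric.closedBall (0 : V) X) := (isCompact_closedBall _ _).totallyBounded
  obtain ⟨t, ht, hcov⟩ := Metric.totallyBounded_iff.1 hK (δ / 4) (by positivity)
  refine ⟨ht.toFinset.card, fun n c p hp hsep => ?_⟩
  have hex : ∀ i, ∃ y ∈ ht.toFinset, p i - c ∈ Metric.ball y (δ / 4) := by
    intro i
    have : p i - c ∈ Metric.closedBall (0 : V) X := by
      rw [mem_closedBall_zero_iff]; exact (h1 _).trans (hp i)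
    have := hcov this
    simp only [Set.mem_iUnion] at this
    obtain ⟨y, hy, hy'⟩ := this
    exact ⟨y, ht.mem_toFinset.2 hy, hy'⟩
  choose f hf hf' using hex
  have hinj : Function.Injective f := by
    intro i j hij
    by_contra hne
    have h3 := hsep i j hne 0
    simp only [Int.cast_zero, sub_zero] at h3
    rw [abs_of_nonneg (apply_nonneg N _)] at h3
    have h4 := h2 (p i - p j)
    have h5 : dist (p i - c) (p j - c) < δ / 4 + δ / 4 := by
      have a1 := hf' i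
      have a2 := hf' j
      rw [hij] at a1
      rw [Metric.mem_ball] at a1 a2
      calc dist (p i - c) (p j - c) ≤ dist (p i - c) (f j) + dist (p j - c) (f j) :=
            dist_triangle_right _ _ _
        _ < _ := by linarith
    rw [dist_eq_norm, sub_sub_sub_cancel_right] at h5
    linarith
  calc n = (Finset.univ : Finset (Fin n)).card := by simp
    _ ≤ ht.toFinset.card :=
        Finset.card_le_card_of_injOn f (fun i _ => hf i) (fun i _ j _ h => hinj h)

lemma half_far (k l : ℤ) : (1 / 2 : ℝ) ≤ |(k : ℝ) + 1 / 2 - l| := by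
  rcases le_or_gt l k with h | h
  · have : (l : ℝ) ≤ k := by exact_mod_cast h
    rw [abs_of_nonneg (by linarith)]; linarith
  · have : (k : ℝ) + 1 ≤ l := by exact_mod_cast h
    rw [abs_of_nonpos (by linarith)]; linarith

/-- For every `m ≥ 1` there is a norm on a Euclidean space such that for every `R ≥ 1` there are
`R ^ m` points in the ball of radius `384 m^3 R^16` with all distances half-integers. -/
lemma exists_norm_points (m : ℕ) (hm : 1 ≤ m) :
    ∃ N : Seminorm ℝ (EuclideanSpace ℝ (Fin 2 × (Fin m × Fin 3))),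
      (∀ x, ‖x‖ ≤ N x) ∧ (∀ x, N x ≤ 2 * ‖x‖) ∧
      ∀ R : ℕ, 1 ≤ R → ∃ p : Fin (R ^ m) → EuclideanSpace ℝ (Fin 2 × (Fin m × Fin 3)),
        (∀ i, N (p i) ≤ 384 * (m : ℝ) ^ 3 * (R : ℝ) ^ 16) ∧
        ∀ i j, i ≠ j → ∃ k : ℤ, N (p i - p j) = k + 1 / 2 := by
  obtain ⟨N, h1, h2, h3⟩ := exists_seminorm (DD m) two_le_norm sep_DD
  refine ⟨N, h1, h2, fun R hR => ?_⟩
  let a : Fin (R ^ m) → Fin m → ℤ := fun i j => ((finFunctionFinEquiv.symm i j : Fin R) : ℕ)
  have ha : ∀ i j, 0 ≤ a i j ∧ a i j < R := by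
    intro i j
    have := (finFunctionFinEquiv.symm i j : Fin R).isLt
    simp only [a]
    omega
  have hinj : ∀ i j, i ≠ j → a i ≠ a j := by
    intro i j hij h
    apply hij
    apply finFunctionFinEquiv.symm.injective
    funext l
    have := congrFun h l
    simp only [a] at this
    apply Fin.ext
    omega
  refine ⟨fun i => emb (TT m R) R (phi (a i)), fun i => ?_, fun i j hij => ?_⟩
  · have := norm_emb_phi_le hR hm (ha i)
    have := h2 (emb (TT m R) R (phi (a i)))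
    linarith
  · apply h3
    exact ⟨R, a i, a j, ha i, ha j, hinj i j hij, emb_sub _ _ _ _⟩

lemma exists_scale {K X : ℝ} (hK : 0 < K) (hX : K ≤ X) :
    ∃ R : ℕ, 1 ≤ R ∧ K * (R : ℝ) ^ 16 ≤ X ∧ X < K * ((R : ℝ) + 1) ^ 16 := by
  classical
  have hex : ∃ R : ℕ, X < K * ((R : ℝ) + 1) ^ 16 := by
    obtain ⟨R, hR⟩ := exists_nat_gt (X / K)
    refine ⟨R, ?_⟩
    rw [div_lt_iff₀ hK] at hR
    have h1 : (1 : ℝ) ≤ (R : ℝ) + 1 := by have : (0 : ℝ) ≤ R := by positivity
                                          linarith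
    have h2 : (R : ℝ) + 1 ≤ ((R : ℝ) + 1) ^ 16 := le_self_pow₀ h1 (by norm_num)
    nlinarith
  have hspec := Nat.find_spec hex
  have h0 : Nat.find hex ≠ 0 := by
    intro h
    rw [h] at hspec
    norm_num at hspec
    linarith
  refine ⟨Nat.find hex, Nat.one_le_iff_ne_zero.2 h0, ?_, hspec⟩
  have hmin := Nat.find_min hex (m := Nat.find hex - 1) (by omega)
  rw [not_lt, Nat.cast_pred (Nat.pos_of_ne_zero h0), sub_add_cancel] at hmin
  exact hmin

theorem main (A : ℕ) : ∃ d : ℕ, 1 ≤ d ∧ ∃ N : Seminorm ℝ (Fin d → ℝ), (∀ x, N x = 0 → x = 0) ∧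
    ∀ δ : ℝ, 0 < δ → δ < 1 / 2 →
      Tendsto (fun X : ℝ => ((sSup {n : ℕ | ∃ (c : Fin d → ℝ) (p : Fin n → (Fin d → ℝ)),
        (∀ i, N (p i - c) ≤ X) ∧
        ∀ i j, i ≠ j → ∀ k : ℤ, δ ≤ |N (p i - p j) - k|} : ℕ) : ℝ) / X ^ A) atTop atTop := by
  set m := 16 * A + 1 with hmdef
  have hm : 1 ≤ m := by omega
  obtain ⟨N, h1, h2, h3⟩ := exists_norm_points m hm
  have hfin : Module.finrank ℝ (Fin (6 * m) → ℝ)
      = Module.finrank ℝ (EuclideanSpace ℝ (Fin 2 × (Fin m × Fin 3))) := by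
    rw [finrank_euclideanSpace, Module.finrank_fin_fun, Fintype.card_prod, Fintype.card_prod,
      Fintype.card_fin, Fintype.card_fin, Fintype.card_fin]
    ring
  let e : (Fin (6 * m) → ℝ) ≃ₗ[ℝ] EuclideanSpace ℝ (Fin 2 × (Fin m × Fin 3)) :=
    LinearEquiv.ofFinrankEq _ _ hfin
  refine ⟨6 * m, by omega, N.comp e.toLinearMap, ?_, ?_⟩
  · intro x hx
    have h4 : N (e x) = 0 := hx
    have h5 := h1 (e x)
    rw [h4] at h5
    have h6 : e x = 0 := norm_le_zero_iff.1 h5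
    exact e.map_eq_zero_iff.1 h6
  · intro δ hδ hδ'
    have hK : (0 : ℝ) < 384 * (m : ℝ) ^ 3 := by positivity
    set K : ℝ := 384 * (m : ℝ) ^ 3 with hKdef
    -- lower bound
    have hlow : ∀ (X : ℝ) (R : ℕ), 1 ≤ R → K * (R : ℝ) ^ 16 ≤ X →
        R ^ m ≤ sSup {n : ℕ | ∃ (c : Fin (6 * m) → ℝ) (p : Fin n → (Fin (6 * m) → ℝ)),
          (∀ i, (N.comp e.toLinearMap) (p i - c) ≤ X) ∧
          ∀ i j, i ≠ j → ∀ k : ℤ, δ ≤ |(N.comp e.toLinearMap) (p i - p j) - k|} := by
      intro X R hR hX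
      apply le_csSup
      · obtain ⟨M, hM⟩ := bdd_cfg N h1 h2 X δ hδ
        refine ⟨M, ?_⟩
        rintro n ⟨c, p, hp, hsep⟩
        refine hM n (e c) (fun i => e (p i)) (fun i => ?_) (fun i j hij k => ?_)
        · rw [← map_sub]; exact hp i
        · rw [← map_sub]; exact hsep i j hij k
      · obtain ⟨p, hp, hsep⟩ := h3 R hR
        refine ⟨0, fun i => e.symm (p i), fun i => ?_, fun i j hij k => ?_⟩
        · show N (e (e.symm (p i) - 0)) ≤ X
          rw [sub_zero, e.apply_symm_apply]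
          exact (hp i).trans hX
        · show δ ≤ |N (e (e.symm (p i) - e.symm (p j))) - k|
          rw [map_sub, e.apply_symm_apply, e.apply_symm_apply]
          obtain ⟨l, hl⟩ := hsep i j hij
          rw [hl]
          exact hδ'.le.trans (half_far l k)
    rw [tendsto_atTop_atTop]
    intro b
    obtain ⟨B, hB⟩ := exists_nat_ge (b * (K * 2 ^ 16) ^ A)
    refine ⟨K * ((B : ℝ) + 1) ^ 16, fun X hX => ?_⟩
    have hB1 : (1 : ℝ) ≤ (B : ℝ) + 1 := by have : (0 : ℝ) ≤ B := by positivity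
                                           linarith
    have hKX : K ≤ X := le_trans (le_mul_of_one_le_right hK.le (one_le_pow₀ hB1)) hX
    obtain ⟨R, hR, hR1, hR2⟩ := exists_scale hK hKX
    have hRr : (1 : ℝ) ≤ R := by exact_mod_cast hR
    have hBR : (B : ℝ) ≤ R := by
      have h4 : ((B : ℝ) + 1) ^ 16 < ((R : ℝ) + 1) ^ 16 :=
        lt_of_mul_lt_mul_left (hX.trans_lt hR2) hK.le
      have h5 := lt_of_pow_lt_pow_left₀ 16 (by positivity) h4
      linarith
    have hXpos : 0 < X := hK.trans_le hKX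
    have h6 := hlow X R hR hR1
    have h7 := (Nat.cast_le (α := ℝ)).2 h6
    rw [Nat.cast_pow] at h7
    rw [le_div_iff₀ (by positivity)]
    refine le_trans ?_ h7
    have h8 : X ≤ (K * 2 ^ 16) * (R : ℝ) ^ 16 := by
      have : ((R : ℝ) + 1) ^ 16 ≤ (2 * (R : ℝ)) ^ 16 :=
        pow_le_pow_left₀ (by positivity) (by linarith) 16
      calc X ≤ K * ((R : ℝ) + 1) ^ 16 := hR2.le
        _ ≤ K * (2 * (R : ℝ)) ^ 16 := mul_le_mul_of_nonneg_left this hK.le
        _ = _ := by ring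
    have h9 : X ^ A ≤ (K * 2 ^ 16) ^ A * (R : ℝ) ^ (16 * A) := by
      calc X ^ A ≤ ((K * 2 ^ 16) * (R : ℝ) ^ 16) ^ A := pow_le_pow_left₀ hXpos.le h8 A
        _ = _ := by rw [mul_pow, ← pow_mul]
    rcases le_or_gt b 0 with hb | hb
    · exact le_trans (mul_nonpos_of_nonpos_of_nonneg hb (by positivity)) (by positivity)
    · calc b * X ^ A ≤ b * ((K * 2 ^ 16) ^ A * (R : ℝ) ^ (16 * A)) :=
            mul_le_mul_of_nonneg_left h9 hb.le
        _ = (b * (K * 2 ^ 16) ^ A) * (R : ℝ) ^ (16 * A) := by ring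
        _ ≤ (R : ℝ) * (R : ℝ) ^ (16 * A) :=
            mul_le_mul_of_nonneg_right (hB.trans hBR) (by positivity)
        _ = (R : ℝ) ^ m := by rw [hmdef]; ring

end Pool.Agent.Lib.MP_af7c6a_co
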